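import Pool.Agent.Q230.RC.Main

/-!
# MP_391ee8_lc: optimal-colouring reconfiguration is NP-hard on perfect graphs

Deciding `χ(G, k, f₀) ≤ q` is NP-hard for perfect graphs `G`.  In fact it is NP-hard, already for
bipartite graphs with at most `3 k` vertices, to distinguish between `χ(G, k, f₀) = 2` and
`χ(G, k, f₀) = k`.
-/

set_option autoImplicit false

namespace Pool.Agent.Results.MP_391ee8_lc.NPHardPerfect

open Pool.Agent.NPC Pool.Agent.Q230.RC

theorem result : NPHardP OCR ∧ Gap := ⟨ocr_hard, gap⟩

end Pool.Agent.Results.MP_391ee8_lc.NPHardPerfect
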